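import Pool.Agent.Helper31.TMS.Defs

/-!
# Multitape Turing machines with few moves of the work heads: definitions
-/

namespace Pool.Agent.Helper20.BRT

open Pool.Agent.Helper65.LinSpace
open Pool.Agent.Helper31.TMS (AcceptsAt)

variable {k : ℕ}

/-- The number of moves of the work heads in the first `t` steps: pairs of a time `u < t` and a work
head which is, after the time `u + 1`, on another cell than after the time `u`. Moves of the input
head and steps in which no work head moves are not counted. -/
noncomputable def moves (M : TM k) (x : List Bool) (t : ℕ) : ℕ :=
  {z : ℕ × Fin k | z.1 < t ∧ (M.run x (z.1 + 1)).head z.2 ≠ (M.run x z.1).head z.2}.ncard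

/-- The machine halts and accepts the word `x` of length `n`, at any time, after at most `T n` moves of
the work heads. -/
def InMoves (M : TM k) (T : ℕ → ℝ) (x : List Bool) : Prop :=
  ∃ t : ℕ, AcceptsAt M x t ∧ (moves M x t : ℝ) ≤ T x.length

end Pool.Agent.Helper20.BRT
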