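import Pool.Agent.Helper20.BRT.Sim
import Pool.Agent.Helper20.BRT.Defs
import Pool.Agent.Helper92.RE.TmW

/-!
# Multitape Turing machines with few moves of the work heads are machines with reading heads
-/

namespace Pool.Agent.Helper20.BRT

open Pool.Agent.Helper65.LinSpace Pool.Agent.Helper78.Mpc Pool.Agent.Helper28.Ram
open Pool.Agent.Helper65.OH (letW)
open Pool.Agent.Helper65.BR (Reader)
open Pool.Agent.Helper31.TMS (AcceptsAt bval_bits stW exists_bound mvW_length run_halt)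
open Pool.Agent.Helper92.RE (LD letL adr adrL adr_le len_le time_le time_log len_append)
open Pool.Agent.Helper50.RECT (lam6)

/-! ### Moves of a Turing machine -/

section tm

variable {k : ℕ} (M : TM k) (x : List Bool)

theorem head_step (t : ℕ) (i : Fin k) :
    |(M.run x (t + 1)).head i - (M.run x t).head i| ≤ 1 := by
  show |((M.next x (M.run x t)).getD (M.run x t)).head i - (M.run x t).head i| ≤ 1
  unfold TM.next
  rcases M.step (M.run x t).state (inputSym x (M.run x t).inp)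
    (fun i => (M.run x t).tape i ((M.run x t).head i)) with _ | r
  · simp
  · show |(M.run x t).head i + (r.2.2 i).2.toInt - (M.run x t).head i| ≤ 1
    rw [add_sub_cancel_left]
    rcases (r.2.2 i).2 with _ | _ | _ <;> simp [Dir.toInt]

theorem moves_finite (t : ℕ) : {z : ℕ × Fin k | z.1 < t ∧
    (M.run x (z.1 + 1)).head z.2 ≠ (M.run x z.1).head z.2}.Finite := by
  refine Set.Finite.subset (Set.Finite.prod (Set.finite_lt_nat t)
    (Set.finite_univ (α := Fin k))) ?_
  rintro ⟨u, i⟩ ⟨h, -⟩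
  exact ⟨h, Set.mem_univ _⟩

theorem moves_mono {t t' : ℕ} (h : t ≤ t') : moves M x t ≤ moves M x t' := by
  refine Set.ncard_le_ncard ?_ (moves_finite M x t')
  rintro ⟨u, i⟩ ⟨h1, h2⟩
  exact ⟨h1.trans_le h, h2⟩

theorem moves_succ {t : ℕ} {i : Fin k} (h : (M.run x (t + 1)).head i ≠ (M.run x t).head i) :
    moves M x t + 1 ≤ moves M x (t + 1) := by
  unfold moves
  have h1 : (t, i) ∉ {z : ℕ × Fin k | z.1 < t ∧
      (M.run x (z.1 + 1)).head z.2 ≠ (M.run x z.1).head z.2} := fun h2 =>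
    absurd h2.1 (lt_irrefl _)
  rw [← Set.ncard_insert_of_notMem h1 (moves_finite M x t)]
  refine Set.ncard_le_ncard ?_ (moves_finite M x (t + 1))
  rintro ⟨u, j⟩ h2
  rcases Set.mem_insert_iff.1 h2 with h3 | ⟨h3, h4⟩
  · obtain ⟨rfl, rfl⟩ := Prod.mk.inj h3
    exact ⟨Nat.lt_succ_self _, h⟩
  · exact ⟨Nat.lt_succ_of_lt h3, h4⟩

/-- The work heads are not farther from the start than the number of their moves. -/
theorem head_le (t : ℕ) (i : Fin k) : |(M.run x t).head i| ≤ moves M x t := by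
  induction t with
  | zero =>
    show |(0 : ℤ)| ≤ _
    simp
  | succ t ih =>
    by_cases h : (M.run x (t + 1)).head i = (M.run x t).head i
    · rw [h]
      exact ih.trans (by exact_mod_cast moves_mono M x (Nat.le_succ t))
    · have h1 := moves_succ M x h
      have h2 := abs_le.1 (head_step M x t i)
      have h3 := abs_le.1 ih
      have h4 : ((moves M x t : ℕ) : ℤ) + 1 ≤ (moves M x (t + 1) : ℕ) := by exact_mod_cast h1
      rw [abs_le]
      constructor <;> linarith [h2.1, h2.2, h3.1, h3.2]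

end tm

section

variable {k : ℕ} {D : LD} {M : TM k} {code : (Fin k → M.Sym × M.Sym) → List Bool} {A : Reader k}

/-! ### Soundness -/

theorem sound (hb : code (fun _ => (M.blank, M.blank)) = []) (hA : SmR D M code A)
    {F : List Bool → List Bool} (hF : D.Is F) {w y : List Bool} {r : ℕ}
    (h : A.AcceptsAt w y r) : ∃ t, AcceptsAt M (F w ++ y) t := by
  unfold Reader.AcceptsAt at h
  rcases le_or_gt r (w.length + 1) with hr | hr
  · rw [(sim_cntR hb hA w y hr).1] at h
    split_ifs at h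
    · rw [st_head] at h
      simp at h
    · rw [st_head] at h
      simp at h
  · obtain ⟨t, rfl⟩ : ∃ t, r = w.length + 1 + t := ⟨r - (w.length + 1), by omega⟩
    obtain ⟨⟨f, d, s, g, m, e1, e2, -⟩, -⟩ := simR hb hA hF w y t
    rw [e1, st_head] at h
    obtain ⟨u, -, hu⟩ := e2.1 (by simpa using h)
    exact ⟨u, hu⟩

/-! ### Cells -/

theorem cell_cnt (hb : code (fun _ => (M.blank, M.blank)) = []) (hA : SmR D M code A)
    (w y : List Bool) {t : ℕ} (ht : t ≤ w.length + 1) (i : Fin k) :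
    A.cell (A.conf w y t).1 i = ([], 0) := by
  rw [(sim_cntR hb hA w y ht).1]
  split_ifs <;>
  · rw [cell_eq hA]
    unfold cur
    simp only [mgM, Nat.unpair_pair, comp_vec]

theorem cell_at (hb : code (fun _ => (M.blank, M.blank)) = []) (hA : SmR D M code A)
    {F : List Bool → List Bool} (hF : D.Is F) (w y : List Bool) (t : ℕ) (i : Fin k) :
    A.cell (A.conf w y (w.length + 1 + t)).1 i = ([], fld ((M.run (F w ++ y) t).head i)) := by
  obtain ⟨⟨f, d, s, g, m, e1, -, e3, -⟩, -⟩ := simR hb hA hF w y t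
  rw [e1, cell_eq hA, ← e3 i, fld_toZ]
  unfold cur
  simp only [Nat.unpair_pair, comp_vec]

theorem moves_le (hb : code (fun _ => (M.blank, M.blank)) = []) (hA : SmR D M code A)
    {F : List Bool → List Bool} (hF : D.Is F) (w y : List Bool) (t : ℕ) :
    A.moves w y (w.length + 1 + t) ≤ moves M (F w ++ y) t := by
  unfold Reader.moves moves
  refine Set.ncard_le_ncard_of_injOn (fun z : ℕ × Fin k => (z.1 - (w.length + 1), z.2)) ?_ ?_
    (moves_finite M (F w ++ y) t)
  · rintro ⟨v, i⟩ ⟨h1, h2⟩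
    simp only at h1 h2
    rcases lt_or_ge v (w.length + 1) with hv | hv
    · exact absurd ((cell_cnt hb hA w y (by omega) i).trans
        (cell_cnt hb hA w y (by omega) i).symm) h2
    · obtain ⟨u, rfl⟩ : ∃ u, v = w.length + 1 + u := ⟨v - (w.length + 1), by omega⟩
      rw [show w.length + 1 + u + 1 = w.length + 1 + (u + 1) by omega, cell_at hb hA hF,
        cell_at hb hA hF] at h2
      have h3 : w.length + 1 + u - (w.length + 1) = u := by omega
      simp only [Set.mem_ofPred_eq, h3]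
      exact ⟨by omega, fun h => h2 (by rw [h])⟩
  · rintro ⟨v, i⟩ ⟨h1, h2⟩ ⟨v', i'⟩ ⟨h1', h2'⟩ h
    simp only [Prod.mk.injEq] at h h1 h2 h1' h2'
    have hv : ¬ v < w.length + 1 := fun hv =>
      h2 ((cell_cnt hb hA w y (by omega) i).trans (cell_cnt hb hA w y (by omega) i).symm)
    have hv' : ¬ v' < w.length + 1 := fun hv =>
      h2' ((cell_cnt hb hA w y (by omega) i').trans (cell_cnt hb hA w y (by omega) i').symm)
    refine Prod.ext ?_ h.2
    show v = v'
    omega

theorem jumps_eq (hb : code (fun _ => (M.blank, M.blank)) = []) (hA : SmR D M code A)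
    {F : List Bool → List Bool} (hF : D.Is F) (w y : List Bool) (r : ℕ) :
    A.jumps w y r = 0 := by
  unfold Reader.jumps
  have h : {z : ℕ × Fin k | z.1 < r ∧ ¬ Reader.Near (A.cell (A.conf w y (z.1 + 1)).1 z.2)
      (A.cell (A.conf w y z.1).1 z.2)} = ∅ := by
    ext ⟨v, i⟩
    simp only [Set.mem_ofPred_eq, Set.mem_empty_iff_false, iff_false, not_and, not_not]
    intro _
    rcases lt_or_ge v (w.length + 1) with hv | hv
    · rw [cell_cnt hb hA w y (by omega), cell_cnt hb hA w y (by omega)]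
      exact ⟨rfl, Nat.le_succ _, Nat.le_succ _⟩
    · obtain ⟨u, rfl⟩ : ∃ u, v = w.length + 1 + u := ⟨v - (w.length + 1), by omega⟩
      rw [show w.length + 1 + u + 1 = w.length + 1 + (u + 1) by omega, cell_at hb hA hF,
        cell_at hb hA hF]
      have h1 := abs_le.1 (head_step M (F w ++ y) u i)
      have h2 := fld_near (z := (M.run (F w ++ y) (u + 1)).head i)
        (z' := (M.run (F w ++ y) u).head i) (by linarith [h1.2]) (by linarith [h1.1])
      exact ⟨rfl, h2.1, h2.2⟩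
  rw [h, Set.ncard_empty]

/-! ### The bounds -/

/-- The words of the states are short. -/
theorem exists_lenR (M : TM k) (code : (Fin k → M.Sym × M.Sym) → List Bool) (B : ℕ) :
    ∃ K a : ℕ, (∀ c, (code c).length ≤ a) ∧ ∀ (n m b : ℕ), m + 2 ≤ B * (n + 1) → n ≤ m →
      (∀ (f : Bool) (t : Ft M) (p n' : ℕ) (v : Fin k → ℕ), p ≤ m + 1 → n' ≤ n →
        (∀ i, v i < 2 ^ b) → (st M f t (Nat.pair (Nat.pair p n') (vec k v))).length ≤
          K * (b + (Nat.log 2 n + 1))) ∧
      ∀ u ≤ m, u.bits.length ≤ K * (b + (Nat.log 2 n + 1)) := by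
  have := M.finState
  have := M.finSym
  have := finite_ft M
  obtain ⟨a, ha⟩ := exists_bound fun c : Fin k → M.Sym × M.Sym => (code c).length
  obtain ⟨c₂, hc₂⟩ := exists_bound fun t : Ft M => (sd (idF M t).bits).length
  refine ⟨1 + c₂ + 4 * (Nat.log 2 B + 2) + 2 * 2 ^ k, a, ha, fun n m b h hnm => ?_⟩
  have h1 := len_le h
  set l := Nat.log 2 n + 1 with hl
  set e := (Nat.log 2 B + 2) * l with he
  have e1 : (1 + c₂ + 4 * (Nat.log 2 B + 2) + 2 * 2 ^ k) * (b + l) =
      (1 + c₂) * (b + l) + 4 * (Nat.log 2 B + 2) * b + 4 * e + 2 * 2 ^ k * l +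
        2 * (2 ^ k * b) := by
    rw [he]
    ring
  have e2 : 1 + c₂ ≤ (1 + c₂) * (b + l) := Nat.le_mul_of_pos_right _ (by omega)
  constructor
  · intro f t p n' v hp hn' hv
    have h2 : Nat.pair p n' < 2 ^ (2 * e) :=
      Pool.Agent.Helper81.RP.pair_lt (by omega) (by omega)
    have h3 := vec_lt hv
    have h4 : Nat.pair (Nat.pair p n') (vec k v) < 2 ^ (2 * (2 * e + 2 ^ k * b)) :=
      Pool.Agent.Helper81.RP.pair_lt
        (h2.trans_le (Nat.pow_le_pow_right (by norm_num) (by omega)))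
        (h3.trans_le (Nat.pow_le_pow_right (by norm_num) (by omega)))
    have h5 := length_bits h4
    have h6 := hc₂ t
    simp only [st, stW, List.length_cons, List.length_append, mvW_length]
    omega
  · intro u hu
    have h2 : u.bits.length ≤ e := length_bits (by omega)
    omega

/-- **Computations with few moves are within the bounds.** -/
theorem within_core (hb : code (fun _ => (M.blank, M.blank)) = []) (hA : SmR D M code A)
    {F : List Bool → List Bool} (hF : D.Is F) (B C₂ : ℕ) : ∃ C' : ℝ, ∀ (w y : List Bool) (t : ℕ),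
      (F w ++ y).length + 2 ≤ B * (w.length + 1) → w.length ≤ (F w ++ y).length →
      AcceptsAt M (F w ++ y) t →
      moves M (F w ++ y) t * (Nat.log 2 w.length + 1) ^ 4 ≤ C₂ * (w.length + 1) ^ 2 →
      A.Within C' w y := by
  obtain ⟨K, a, ha, hK⟩ := exists_lenR M code B
  obtain ⟨K₄, hK₄⟩ : ∃ K : ℕ, K = Nat.log 2 C₂ + 3 := ⟨_, rfl⟩
  refine ⟨((a : ℝ) + 1) * ((K₄ : ℝ) + 1) ^ 4 * C₂ +
    ((K : ℝ) + a + 1) * ((K₄ : ℝ) + 1) ^ 5 * 2200, fun w y t hx hwx hacc hr4 => ?_⟩
  set x := F w ++ y with hxdef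
  set n := w.length with hn
  set m := x.length with hm
  have hr : moves M x t < 2 ^ (K₄ * (Nat.log 2 n + 1)) := by
    have h1 : moves M x t ≤ C₂ * (n + 1) ^ 2 := by
      refine le_trans (Nat.le_mul_of_pos_right _ ?_) hr4
      positivity
    have h2 : C₂ < 2 ^ (Nat.log 2 C₂ + 1) := Nat.lt_pow_succ_log_self (by norm_num) _
    have h3 : n + 1 ≤ 2 ^ (Nat.log 2 n + 1) := Nat.lt_pow_succ_log_self (by norm_num) n
    calc moves M x t ≤ C₂ * (n + 1) ^ 2 := h1
      _ < 2 ^ (Nat.log 2 C₂ + 1) * (n + 1) ^ 2 := Nat.mul_lt_mul_of_pos_right h2 (by positivity)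
      _ ≤ 2 ^ (Nat.log 2 C₂ + 1) * (2 ^ (Nat.log 2 n + 1)) ^ 2 :=
          Nat.mul_le_mul_left _ (Nat.pow_le_pow_left h3 2)
      _ = 2 ^ (Nat.log 2 C₂ + 1 + 2 * (Nat.log 2 n + 1)) := by
          rw [← pow_mul, ← pow_add]
          ring_nf
      _ ≤ 2 ^ (K₄ * (Nat.log 2 n + 1)) := by
          refine Nat.pow_le_pow_right (by norm_num) ?_
          have e1 : K₄ * (Nat.log 2 n + 1) = (Nat.log 2 C₂ + 1) * (Nat.log 2 n + 1) +
              2 * (Nat.log 2 n + 1) := by
            rw [hK₄]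
            ring
          have e2 : Nat.log 2 C₂ + 1 ≤ (Nat.log 2 C₂ + 1) * (Nat.log 2 n + 1) :=
            Nat.le_mul_of_pos_right _ (Nat.succ_pos _)
          omega
  obtain ⟨l, hl⟩ : ∃ l : ℕ, l = Nat.log 2 n + 1 := ⟨_, rfl⟩
  obtain ⟨b, hbd⟩ : ∃ b : ℕ, b = K₄ * l := ⟨_, rfl⟩
  obtain ⟨g1, g2⟩ := hK n m b hx hwx
  rw [← hl] at g1 g2 hr
  rw [← hbd] at hr
  -- the heads
  have hhead : ∀ u ≤ t + 1, ∀ i, fld ((M.run x u).head i) < 2 ^ b := by
    intro u hu i
    have h1 : ∀ v ≤ t, fld ((M.run x v).head i) < 2 ^ b := by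
      intro v hv
      have h2 := abs_le.1 (head_le M x v i)
      have h3 : moves M x v < 2 ^ b := (moves_mono M x hv).trans_lt (by omega)
      have h4 : ((moves M x v : ℕ) : ℤ) < 2 ^ b := by exact_mod_cast h3
      exact fld_lt (by linarith [h2.1]) (by linarith [h2.2])
    rcases Nat.lt_or_ge u (t + 1) with h | h
    · exact h1 u (by omega)
    · obtain rfl : u = t + 1 := by omega
      have h2 : M.run x (t + 1) = M.run x t := by
        show (M.next x (M.run x t)).getD _ = _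
        rw [hacc.1]
        rfl
      rw [h2]
      exact h1 t le_rfl
  have hmv : moves M x (t + 1) = moves M x t := by
    have h2 : M.run x (t + 1) = M.run x t := by
      show (M.next x (M.run x t)).getD _ = _
      rw [hacc.1]
      rfl
    unfold moves
    congr 1
    ext ⟨u, i⟩
    simp only [Set.mem_ofPred_eq]
    constructor
    · rintro ⟨h3, h4⟩
      refine ⟨?_, h4⟩
      rcases Nat.lt_or_ge u t with h | h
      · exact h
      · obtain rfl : u = t := by omega
        exact absurd (by rw [h2]) h4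
    · rintro ⟨h3, h4⟩
      exact ⟨by omega, h4⟩
  have hcell : ∀ v ≤ n + 1 + (t + 1), ∀ i, (A.cell (A.conf w y v).1 i).2 < 2 ^ b := by
    intro v hv i
    rcases le_or_gt v (n + 1) with h | h
    · rw [cell_cnt hb hA w y h]
      positivity
    · obtain ⟨u, rfl⟩ : ∃ u, v = n + 1 + u := ⟨v - (n + 1), by omega⟩
      rw [cell_at hb hA hF]
      exact hhead u (by omega) i
  refine ⟨n + 1 + (t + 1), K * (b + l), b, a, ?_, ?_, ?_, ?_⟩
  · obtain ⟨⟨f, d, s, g, v, e1, e2, -⟩, -⟩ := simR hb hA hF w y (t + 1)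
    show (A.conf w y (n + 1 + (t + 1))).1.head? = some true
    rw [e1, st_head, e2.2 ⟨t, rfl, hacc⟩]
  · intro v hv
    have harr : ∀ i : Fin k, (A.arr (sd (i : ℕ).bits ++ (A.conf w y v).1)).length ≤ b :=
      fun i => by
        rw [hA.arr]
        exact Nat.zero_le _
    rcases le_or_gt v (n + 1) with h | h
    · obtain ⟨e1, e3⟩ := sim_cntR hb hA w y h
      refine ⟨?_, ?_, fun i => ⟨harr i, ?_⟩, fun u z _ _ => ?_⟩
      · rw [e1]
        split_ifs with h'
        · exact g1 _ _ _ _ _ (Nat.zero_le _) h' fun _ => by positivity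
        · exact g1 _ _ _ _ _ (Nat.zero_le _) le_rfl fun _ => by positivity
      · rw [e1]
        split_ifs with h'
        · rw [hA.addr]
          show (Nat.unpair (Nat.unpair (Nat.pair (Nat.pair 0 v) _)).1).2.bits.length ≤ _
          rw [Nat.unpair_pair, Nat.unpair_pair]
          exact g2 v (h'.trans hwx)
        · rw [hA.addr]
          show (adr D (Nat.unpair (Nat.unpair (Nat.pair (Nat.pair 0 w.length) _)).1).2
            ((Nat.unpair (Nat.unpair (Nat.pair (Nat.pair 0 w.length) _)).1).1 - 1)).bits.length ≤ _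
          rw [Nat.unpair_pair, Nat.unpair_pair]
          exact g2 _ ((adr_le D _ _).trans (max_le (Nat.zero_le _) hwx))
      · have h0 : ∀ (f : Bool) (σ : Option M.State) (q : ℕ),
            (A.pos (sd (i : ℕ).bits ++ st M f (σ, fun _ => Dir.stay, fun _ => M.blank,
              fun _ => false) (Nat.pair q (vec k fun _ => 0)))).length ≤ b := by
          intro f σ q
          rw [hA.pos]
          unfold cur
          simp only [mgM, Nat.unpair_pair, comp_vec]
          exact Nat.zero_le _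
        rw [e1]
        split_ifs <;> exact h0 _ _ _
      · rw [e3]
        exact Nat.zero_le _
    · obtain ⟨u, rfl⟩ : ∃ u, v = n + 1 + u := ⟨v - (n + 1), by omega⟩
      obtain ⟨⟨f, d, s, g, c, e1, -, e3, e4⟩, e5⟩ := simR hb hA hF w y u
      have hi := Pool.Agent.Helper20.TMS.inp_le M (F w ++ y) u
      have hc : ∀ i, c i < 2 ^ b := fun i => by
        rw [e4]
        exact hhead _ (by omega) i
      refine ⟨?_, ?_, fun i => ⟨harr i, ?_⟩, fun u' z _ _ => ?_⟩
      · rw [e1]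
        exact g1 _ _ _ _ _ hi le_rfl hc
      · rw [e1, hA.addr]
        show (adr D (Nat.unpair (Nat.unpair (Nat.pair (Nat.pair _ w.length) _)).1).2
          ((Nat.unpair (Nat.unpair (Nat.pair (Nat.pair _ w.length) _)).1).1 - 1)).bits.length ≤ _
        rw [Nat.unpair_pair, Nat.unpair_pair]
        exact g2 _ ((adr_le D _ _).trans (max_le (Nat.sub_le_of_le_add hi) hwx))
      · have h1 : cur M (some (M.run (F w ++ y) u).state, d, s, g) i
            (Nat.pair (Nat.pair (M.run (F w ++ y) u).inp w.length) (vec k c)) < 2 ^ b := by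
          have h2 := hcell (n + 1 + u) hv i
          rw [e1, cell_eq hA] at h2
          exact h2
        rw [e1, hA.pos]
        exact length_bits h1
      · rw [e5]
        exact ha _
  · rw [jumps_eq hb hA hF]
    have h1 : (A.moves w y (n + 1 + (t + 1)) : ℝ) ≤ ((moves M x t : ℕ) : ℝ) := by
      have h2 := moves_le hb hA hF w y (t + 1)
      rw [← hxdef, hmv] at h2
      exact_mod_cast h2
    have hr5 : ((moves M x t : ℕ) : ℝ) * ((Nat.log 2 n : ℝ) + 1) ^ 4 ≤
        (C₂ : ℝ) * ((n : ℝ) + 1) ^ 2 := by exact_mod_cast hr4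
    have hbl : ((b : ℝ) + ((Nat.log 2 w.length : ℝ) + 1)) =
        ((K₄ : ℝ) + 1) * ((Nat.log 2 n : ℝ) + 1) := by
      rw [hbd, hl]
      push_cast
      ring
    rw [hbl]
    calc (A.moves w y (n + 1 + (t + 1)) : ℝ) * (((0 : ℕ) : ℝ) + w.length + 1) * ((a : ℝ) + 1) *
          (((K₄ : ℝ) + 1) * ((Nat.log 2 n : ℝ) + 1)) ^ 4 =
        (A.moves w y (n + 1 + (t + 1)) : ℝ) * (((a : ℝ) + 1) * ((K₄ : ℝ) + 1) ^ 4 *
          (((n : ℝ) + 1) * ((Nat.log 2 n : ℝ) + 1) ^ 4)) := by
          push_cast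
          ring
      _ ≤ ((moves M x t : ℕ) : ℝ) * (((a : ℝ) + 1) * ((K₄ : ℝ) + 1) ^ 4 *
          (((n : ℝ) + 1) * ((Nat.log 2 n : ℝ) + 1) ^ 4)) :=
          mul_le_mul_of_nonneg_right h1 (by positivity)
      _ = ((a : ℝ) + 1) * ((K₄ : ℝ) + 1) ^ 4 * ((n : ℝ) + 1) *
          (((moves M x t : ℕ) : ℝ) * ((Nat.log 2 n : ℝ) + 1) ^ 4) := by ring
      _ ≤ ((a : ℝ) + 1) * ((K₄ : ℝ) + 1) ^ 4 * ((n : ℝ) + 1) * (C₂ * ((n : ℝ) + 1) ^ 2) :=
          mul_le_mul_of_nonneg_left hr5 (by positivity)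
      _ = (((a : ℝ) + 1) * ((K₄ : ℝ) + 1) ^ 4 * C₂) * ((n : ℝ) + 1) ^ 3 := by ring
      _ ≤ _ := mul_le_mul_of_nonneg_right (le_add_of_nonneg_right (by positivity))
          (by positivity)
  · have hbl : ((b : ℝ) + ((Nat.log 2 w.length : ℝ) + 1)) =
        ((K₄ : ℝ) + 1) * ((Nat.log 2 n : ℝ) + 1) := by
      rw [hbd, hl]
      push_cast
      ring
    have hbs : ((K * (b + l) : ℕ) : ℝ) = (K : ℝ) * (((K₄ : ℝ) + 1) * ((Nat.log 2 n : ℝ) + 1)) := by
      rw [hbd, hl]
      push_cast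
      ring
    rw [hbl, hbs]
    have hl1 : (1 : ℝ) ≤ (Nat.log 2 n : ℝ) + 1 := by
      have : (0 : ℝ) ≤ (Nat.log 2 n : ℝ) := Nat.cast_nonneg _
      linarith
    have hK1 : (1 : ℝ) ≤ (K₄ : ℝ) + 1 := by
      have : (0 : ℝ) ≤ (K₄ : ℝ) := Nat.cast_nonneg _
      linarith
    set L : ℝ := (Nat.log 2 n : ℝ) + 1 with hL
    have hKL : 1 ≤ ((K₄ : ℝ) + 1) * L := by nlinarith
    have h6 : L ^ 5 ≤ 2200 * ((n : ℝ) + 1) :=
      (pow_le_pow_right₀ hl1 (by norm_num)).trans (lam6 n)
    have ha0 : (0 : ℝ) ≤ a := Nat.cast_nonneg _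
    calc ((K : ℝ) * (((K₄ : ℝ) + 1) * L) + a + ((K₄ : ℝ) + 1) * L) * (((K₄ : ℝ) + 1) * L) ^ 4 ≤
        ((K : ℝ) * (((K₄ : ℝ) + 1) * L) + a * (((K₄ : ℝ) + 1) * L) + ((K₄ : ℝ) + 1) * L) *
          (((K₄ : ℝ) + 1) * L) ^ 4 := by
          gcongr
          exact le_mul_of_one_le_right ha0 hKL
      _ = ((K : ℝ) + a + 1) * ((K₄ : ℝ) + 1) ^ 5 * L ^ 5 := by ring
      _ ≤ ((K : ℝ) + a + 1) * ((K₄ : ℝ) + 1) ^ 5 * (2200 * ((n : ℝ) + 1)) :=
          mul_le_mul_of_nonneg_left h6 (by positivity)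
      _ = (((K : ℝ) + a + 1) * ((K₄ : ℝ) + 1) ^ 5 * 2200) * ((n : ℝ) + 1) := by ring
      _ ≤ _ := mul_le_mul_of_nonneg_right (le_add_of_nonneg_left (by positivity))
          (by positivity)

/-- **Computations with few moves are within the bounds.** -/
theorem within_reader (hb : code (fun _ => (M.blank, M.blank)) = []) (hA : SmR D M code A)
    {F : List Bool → List Bool} (hF : D.Is F) {b₀ : ℕ}
    (hlen : ∀ w, (F w).length ≤ b₀ * (w.length + 1)) (hle : ∀ w, w.length ≤ (F w).length)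
    (κ : ℕ) (C : ℝ) : ∃ C' : ℝ, ∀ w y : List Bool, y.length ≤ κ * w.length →
      InMoves M (fun n => C * ((n : ℝ) + 1) ^ (2 : ℝ) / ((Nat.log 2 n : ℝ) + 1) ^ 4) (F w ++ y) →
      A.Within C' w y := by
  obtain ⟨C₀, hC₀⟩ := exists_nat_ge |C|
  obtain ⟨C', hC'⟩ := within_core hb hA hF (b₀ + κ + 2) (C₀ * (b₀ + κ + 2) ^ 2)
  refine ⟨C', fun w y hy ⟨t, hacc, ht⟩ => ?_⟩
  have hx := len_append hlen hy
  have hwx : w.length ≤ (F w ++ y).length := by
    rw [List.length_append]
    exact (hle w).trans (Nat.le_add_right _ _)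
  refine hC' w y t hx hwx hacc ?_
  set x := F w ++ y with hxdef
  have hl0 : (0 : ℝ) ≤ (Nat.log 2 x.length : ℝ) := Nat.cast_nonneg _
  have ht2 : (moves M x t : ℝ) * ((Nat.log 2 x.length : ℝ) + 1) ^ 4 ≤
      C * ((x.length : ℝ) + 1) ^ 2 := by
    have h1 : (moves M x t : ℝ) ≤ C * ((x.length : ℝ) + 1) ^ (2 : ℝ) /
      ((Nat.log 2 x.length : ℝ) + 1) ^ 4 := ht
    rw [le_div_iff₀ (by positivity)] at h1
    have h3 : ((x.length : ℝ) + 1) ^ (2 : ℝ) = ((x.length : ℝ) + 1) ^ 2 := by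
      exact_mod_cast Real.rpow_natCast ((x.length : ℝ) + 1) 2
    rwa [h3] at h1
  have h2 : ((moves M x t * (Nat.log 2 w.length + 1) ^ 4 : ℕ) : ℝ) ≤
      ((C₀ * (b₀ + κ + 2) ^ 2 * (w.length + 1) ^ 2 : ℕ) : ℝ) := by
    have h3 : (Nat.log 2 w.length : ℝ) ≤ Nat.log 2 x.length := by
      exact_mod_cast Nat.log_mono_right hwx
    have h4 : (x.length : ℝ) + 1 ≤ ((b₀ + κ + 2 : ℕ) : ℝ) * ((w.length : ℝ) + 1) := by
      have : x.length + 1 ≤ (b₀ + κ + 2) * (w.length + 1) := by omega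
      exact_mod_cast this
    calc ((moves M x t * (Nat.log 2 w.length + 1) ^ 4 : ℕ) : ℝ) =
        (moves M x t : ℝ) * ((Nat.log 2 w.length : ℝ) + 1) ^ 4 := by push_cast; ring
      _ ≤ (moves M x t : ℝ) * ((Nat.log 2 x.length : ℝ) + 1) ^ 4 := by gcongr
      _ ≤ C * ((x.length : ℝ) + 1) ^ 2 := ht2
      _ ≤ (C₀ : ℝ) * ((x.length : ℝ) + 1) ^ 2 :=
          mul_le_mul_of_nonneg_right ((le_abs_self C).trans hC₀) (by positivity)
      _ ≤ (C₀ : ℝ) * (((b₀ + κ + 2 : ℕ) : ℝ) * ((w.length : ℝ) + 1)) ^ 2 := by gcongr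
      _ = _ := by push_cast; ring
  exact_mod_cast h2

end

/-- **Turing machines with few moves of the work heads are machines with reading heads**: for every
machine `M` there is a machine `A` with reading heads such that `A` accepts `w` with the additional
word `y` only if `M` accepts `F w y`, and `A` accepts within the bounds if `M` accepts with at most
`C n ^ 2 / log ^ 4 n` moves of the work heads, in any time. -/
theorem exists_reader {k : ℕ} (M : TM k) {D : LD} {F : List Bool → List Bool} (hF : D.Is F)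
    {b₀ : ℕ} (hlen : ∀ w, (F w).length ≤ b₀ * (w.length + 1))
    (hle : ∀ w, w.length ≤ (F w).length) (κ : ℕ) (C : ℝ) :
    ∃ (A : Reader k) (C' : ℝ), (∀ w y r, A.AcceptsAt w y r → ∃ t, AcceptsAt M (F w ++ y) t) ∧
      ∀ w y : List Bool, y.length ≤ κ * w.length →
        InMoves M (fun n => C * ((n : ℝ) + 1) ^ (2 : ℝ) / ((Nat.log 2 n : ℝ) + 1) ^ 4)
          (F w ++ y) → A.Within C' w y := by
  have := M.finSym
  obtain ⟨code, hc, hb⟩ := exists_code (T := Fin k → M.Sym × M.Sym) fun _ => (M.blank, M.blank)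
  obtain ⟨A, hA⟩ := exists_machR D M hc
  obtain ⟨C', hC'⟩ := within_reader hb hA hF hlen hle κ C
  exact ⟨A, C', fun w y r h => sound hb hA hF h, hC'⟩

end Pool.Agent.Helper20.BRT
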