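import Pool.Agent.Helper81.RP.Bnd
import Pool.Agent.Helper31.TMS.Mach

/-!
# Functions which are defined by finitely many patterns with a number, and codes of vectors
-/

namespace Pool.Agent.Helper20.BRT

open Pool.Agent.Helper65.LinSpace Pool.Agent.Helper78.Mpc Pool.Agent.Helper28.Ram Finset
open Pool.Agent.Helper31.SusD (lst)
open Pool.Agent.Helper81.RP (ls_pair)

/-! ### Patterns with large parameters -/

/-- The least `p ≤ B x` with `c p = x`, or `B x + 1`. -/
def fpB (B c : ℕ → ℕ) (x : ℕ) : ℕ := lst (B x + 1) fun p => eq01 (c p) x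

theorem ls_fpB {B c : ℕ → ℕ} (hB : LS B) (hc : LS c) : LS (fpB B c) := by
  unfold fpB
  refine Pool.Agent.Helper31.SusD.LS.lst (N := fun x => B x + 1) (p := fun x p => eq01 (c p) x)
    (by fun_prop) ?_ fun a m => ?_
  · have : LS (fun z : ℕ × ℕ => c z.2) := LS.comp (g := c) hc (by fun_prop)
    fun_prop
  · unfold eq01
    split_ifs <;> norm_num

/-- The value of the first pattern which fits. -/
def selB {τ : Type} (B : ℕ → ℕ) (c r : τ → ℕ → ℕ) : List τ → ℕ → ℕ
  | [], _ => 1
  | t :: l, x => ifz (lt01 (fpB B (c t) x) (B x + 1)) (selB B c r l x) (r t (fpB B (c t) x))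

theorem ls_selB {τ : Type} {B : ℕ → ℕ} {c r : τ → ℕ → ℕ} (hB : LS B) (hc : ∀ t, LS (c t))
    (hr : ∀ t, LS (r t)) (l : List τ) : LS (selB B c r l) := by
  induction l with
  | nil => exact LS.const 1
  | cons t l ih =>
    have h1 := ls_fpB hB (hc t)
    have h2 : LS (fun x => r t (fpB B (c t) x)) := LS.comp (g := r t) (hr t) h1
    show LS (fun x => ifz (lt01 (fpB B (c t) x) (B x + 1)) (selB B c r l x)
      (r t (fpB B (c t) x)))
    fun_prop

theorem selB_eq {τ : Type} {B : ℕ → ℕ} {c r : τ → ℕ → ℕ}
    (h : ∀ t t' p p', c t p = c t' p' → t = t' ∧ p = p')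
    {t : τ} {p : ℕ} (hp : p ≤ B (c t p)) {l : List τ} (hl : t ∈ l) :
    selB B c r l (c t p) = r t p := by
  induction l with
  | nil => simp at hl
  | cons t' l ih =>
    show ifz (lt01 (fpB B (c t') (c t p)) (B (c t p) + 1)) (selB B c r l (c t p))
      (r t' (fpB B (c t') (c t p))) = r t p
    by_cases hlt : fpB B (c t') (c t p) < B (c t p) + 1
    · have h1 := Pool.Agent.Helper31.SusD.lst_ne (p := fun q => eq01 (c t' q) (c t p)) hlt
      have h2 : c t' (fpB B (c t') (c t p)) = c t p := by
        by_contra hcon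
        apply h1
        show eq01 (c t' (fpB B (c t') (c t p))) (c t p) = 0
        unfold eq01
        rw [if_neg hcon]
      obtain ⟨h3, h4⟩ := h _ _ _ _ h2
      have h5 : lt01 (fpB B (c t') (c t p)) (B (c t p) + 1) = 1 := by
        unfold lt01
        rw [if_pos hlt]
      rw [h5, ifz_ne one_ne_zero, h4, h3]
    · have h5 : lt01 (fpB B (c t') (c t p)) (B (c t p) + 1) = 0 := by
        unfold lt01
        rw [if_neg hlt]
      rw [h5, ifz_zero]
      apply ih
      rcases List.mem_cons.1 hl with rfl | h6
      · exfalso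
        apply hlt
        have h7 := (Pool.Agent.Helper31.SusD.lst_spec (N := B (c t p) + 1)
          (p := fun q => eq01 (c t q) (c t p)) (m := p) (by omega)
          (by show eq01 (c t p) (c t p) ≠ 0; simp [eq01])).2
        have h8 : fpB B (c t) (c t p) ≤ p := h7
        omega
      · exact h6

theorem selB_pos {τ : Type} {B : ℕ → ℕ} {c r : τ → ℕ → ℕ} (h : ∀ t p, 0 < r t p) (l : List τ)
    (x : ℕ) : 0 < selB B c r l x := by
  induction l with
  | nil => exact Nat.one_pos
  | cons t l ih =>
    show 0 < ifz (lt01 (fpB B (c t) x) (B x + 1)) (selB B c r l x) (r t (fpB B (c t) x))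
    unfold ifz
    split_ifs
    · exact ih
    · exact h _ _

/-- A function which is defined by finitely many patterns is computable in linear space. -/
theorem exists_linCompB {τ : Type} [Finite τ] (B : ℕ → ℕ) (hB : LS B)
    (enc out : τ → ℕ → List Bool) (c r : τ → ℕ → ℕ)
    (hc : ∀ t, LS (c t)) (hr : ∀ t, LS (r t)) (hc' : ∀ t p, c t p = num (enc t p))
    (hr' : ∀ t p, r t p = num (out t p))
    (hinj : ∀ t t' p p', enc t p = enc t' p' → t = t' ∧ p = p')
    (hle : ∀ t p, p ≤ B (num (enc t p))) :
    ∃ f : List Bool → List Bool, LinComp f ∧ ∀ t p, f (enc t p) = out t p := by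
  classical
  haveI := Fintype.ofFinite τ
  have hpos : ∀ x, 0 < selB B c r (Finset.univ : Finset τ).toList x := fun x =>
    selB_pos (fun t p => by rw [hr']; exact num_pos _) _ x
  choose g hg using fun x => exists_num (hpos x)
  refine ⟨fun w => g (num w), Pool.Agent.Helper31.TMS.linComp_of_ls (ls_selB hB hc hr _)
    fun w => (hg _).symm, fun t p => ?_⟩
  apply Pool.Agent.Helper78.Avg.num_injective
  show num (g (num (enc t p))) = _
  rw [hg, ← hc', selB_eq ?_ ?_ ?_, hr']
  · intro t t' p p' h
    rw [hc', hc'] at h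
    exact hinj _ _ _ _ (Pool.Agent.Helper78.Avg.num_injective h)
  · rw [hc']
    exact hle _ _
  · simp

/-! ### Codes of vectors of numbers -/

/-- The code of `k` numbers. -/
def vec : (k : ℕ) → (Fin k → ℕ) → ℕ
  | 0, _ => 0
  | k + 1, m => Nat.pair (m 0) (vec k fun i => m i.succ)

/-- The component number `i` of a code. -/
def comp : ℕ → ℕ → ℕ
  | 0, q => q.unpair.1
  | i + 1, q => comp i q.unpair.2

theorem comp_vec : ∀ {k : ℕ} (m : Fin k → ℕ) (i : Fin k), comp i (vec k m) = m i
  | 0, _, i => i.elim0
  | k + 1, m, i => by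
    refine Fin.cases ?_ (fun j => ?_) i
    · show (Nat.unpair (Nat.pair _ _)).1 = _
      rw [Nat.unpair_pair]
    · show comp j (Nat.unpair (Nat.pair _ _)).2 = _
      rw [Nat.unpair_pair]
      exact comp_vec (fun i => m i.succ) j

theorem ls_comp : ∀ i : ℕ, LS (comp i)
  | 0 => by
    show LS fun q : ℕ => q.unpair.1
    fun_prop
  | i + 1 => by
    have h := ls_comp i
    exact LS.comp (g := comp i) (f := fun q : ℕ => q.unpair.2) h (by fun_prop)

theorem ls_vec {α : Type} [Ctx α] : ∀ {k : ℕ} {f : Fin k → α → ℕ}, (∀ i, LS (f i)) →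
    LS (fun a => vec k fun i => f i a)
  | 0, _, _ => LS.const 0
  | k + 1, f, h => by
    have h1 := ls_vec (k := k) (f := fun i => f i.succ) fun i => h i.succ
    exact ls_pair (h 0) h1

/-- The codes of vectors of numbers smaller than `2 ^ e`. -/
theorem vec_lt : ∀ {k : ℕ} {m : Fin k → ℕ} {e : ℕ}, (∀ i, m i < 2 ^ e) →
    vec k m < 2 ^ (2 ^ k * e)
  | 0, _, e, _ => by
    show 0 < _
    positivity
  | k + 1, m, e, h => by
    have h1 := vec_lt (m := fun i => m i.succ) fun i => h i.succ
    have h2 : m 0 < 2 ^ (2 ^ k * e) := by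
      refine (h 0).trans_le (Nat.pow_le_pow_right (by norm_num) ?_)
      exact Nat.le_mul_of_pos_left _ (by positivity)
    have h3 := Pool.Agent.Helper81.RP.pair_lt h2 h1
    have e1 : 2 ^ (k + 1) * e = 2 * (2 ^ k * e) := by ring
    rw [e1]
    exact h3

/-! ### Finitely many tests -/

/-- A function which depends on finitely many tests. -/
theorem ls_tests {α : Type} [Ctx α] : ∀ {k : ℕ} {z : Fin k → α → ℕ}, (∀ i, LS (z i)) →
    ∀ G : (Fin k → Bool) → α → ℕ, (∀ b, LS (G b)) →
    LS (fun a => G (fun i => decide (z i a = 0)) a)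
  | 0, z, _, G, hG => by
    have e : (fun a => G (fun i => decide (z i a = 0)) a) = G fun i => i.elim0 := by
      funext a
      congr 1
      funext i
      exact i.elim0
    rw [e]
    exact hG _
  | k + 1, z, hz, G, hG => by
    have h1 := ls_tests (z := fun i => z i.succ) (fun i => hz i.succ)
      (fun b => G (Fin.cons true b)) fun b => hG _
    have h2 := ls_tests (z := fun i => z i.succ) (fun i => hz i.succ)
      (fun b => G (Fin.cons false b)) fun b => hG _
    have e : (fun a => G (fun i => decide (z i a = 0)) a) = fun a => ifz (z 0 a)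
        (G (Fin.cons true fun i : Fin k => decide (z i.succ a = 0)) a)
        (G (Fin.cons false fun i : Fin k => decide (z i.succ a = 0)) a) := by
      funext a
      unfold ifz
      split_ifs with h
      · congr 1
        funext i
        refine Fin.cases ?_ (fun j => ?_) i
        · simp [h]
        · simp
      · congr 1
        funext i
        refine Fin.cases ?_ (fun j => ?_) i
        · simp [h]
        · simp
    rw [e]
    exact LS.ifz (hz 0) h1 h2

/-! ### Codes of finite types -/

/-- A code of a finite type with the empty word for a given element. -/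
theorem exists_code {T : Type} [Finite T] (t₀ : T) :
    ∃ code : T → List Bool, Function.Injective code ∧ code t₀ = [] := by
  classical
  obtain ⟨m, ⟨e⟩⟩ := Finite.exists_equiv_fin T
  refine ⟨fun t => if t = t₀ then [] else ((e t : ℕ) + 1).bits, ?_, if_pos rfl⟩
  intro t t' h
  have h0 : ∀ n : ℕ, (n + 1).bits ≠ [] := fun n hn => by
    have := Pool.Agent.Helper31.TMS.bits_inj (i := n + 1) (j := 0) (by rw [hn]; rfl)
    omega
  by_cases h1 : t = t₀ <;> by_cases h2 : t' = t₀
  · rw [h1, h2]
  · simp only [if_pos h1, if_neg h2] at h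
    exact absurd h.symm (h0 _)
  · simp only [if_neg h1, if_pos h2] at h
    exact absurd h (h0 _)
  · simp only [if_neg h1, if_neg h2] at h
    have := Pool.Agent.Helper31.TMS.bits_inj h
    exact e.injective (Fin.ext (by omega))

end Pool.Agent.Helper20.BRT
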