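import Pool.Agent.Helper20.BRT.Gen
import Pool.Agent.Helper92.RE.TmL
import Pool.Agent.Helper65.BR.SDefs

/-!
# Multitape Turing machines on the words `F w y` as machines with reading heads: the machine

All work tapes are in one array. The cell number `z` contains the cells `z` and `-1 - z` of all tapes.
-/

namespace Pool.Agent.Helper20.BRT

open Pool.Agent.Helper65.LinSpace Pool.Agent.Helper78.Mpc Pool.Agent.Helper28.Ram
open Pool.Agent.Helper65.OH (letW)
open Pool.Agent.Helper65.BR (Reader)
open Pool.Agent.Helper31.TMS (stW pos stW_inj sd_inj letW_inj ls_stW ls_pos le_num_stW num_le_sd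
  num_mono_left num_le_append exists_linComp bits_inj stW_head)
open Pool.Agent.Helper81.RP (lett ls_pair wd num_wd wd_num)
open Pool.Agent.Helper92.RE (LD letL optL ltv ls_ltv adrL ls_adrL)

/-! ### Folding -/

/-- The position with the side `g` and the cell `m`. -/
def toZ (g : Bool) (m : ℕ) : ℤ := if g then -1 - (m : ℤ) else m

/-- The side after the move `d`; `z` is the test for the cell `0`. -/
def sgM : Dir → Bool → Bool → Bool
  | .left, false, z => z
  | .left, true, _ => true
  | .stay, g, _ => g
  | .right, false, _ => false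
  | .right, true, z => !z

/-- The cell after the move `d`. -/
def mgM : Dir → Bool → ℕ → ℕ
  | .left, false, m => m - 1
  | .left, true, m => m + 1
  | .stay, _, m => m
  | .right, false, m => m + 1
  | .right, true, m => m - 1

theorem toZ_move (d : Dir) (g : Bool) (m : ℕ) :
    toZ (sgM d g (decide (m = 0))) (mgM d g m) = toZ g m + d.toInt := by
  rcases m with _ | m
  · cases d <;> cases g <;> simp [toZ, sgM, mgM, Dir.toInt]
  · cases d <;> cases g <;> simp [toZ, sgM, mgM, Dir.toInt] <;> ring

variable {k : ℕ} (D : LD) (M : TM k)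

/-! ### States -/

/-- The finite part of a state: the state of `M`, the moves, the written symbols and the sides on
which they are written. -/
abbrev Ft : Type := Option M.State × (Fin k → Dir) × (Fin k → M.Sym) × (Fin k → Bool)

theorem finite_ft : Finite (Ft M) := by
  have := M.finState
  have := M.finSym
  infer_instance

/-- The number of a finite part. -/
noncomputable def idF (t : Ft M) : ℕ :=
  haveI := finite_ft M
  (Finite.equivFin (Ft M) t : ℕ)

theorem idF_inj {t t' : Ft M} (h : idF M t = idF M t') : t = t' := by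
  haveI := finite_ft M
  exact (Finite.equivFin (Ft M)).injective (Fin.ext h)

/-- The state word. -/
noncomputable def st (f : Bool) (t : Ft M) (q : ℕ) : List Bool :=
  stW (k := 0) f (fun i => i.elim0) (idF M t) q

theorem st_inj {f f' : Bool} {t t' : Ft M} {q q' : ℕ} (h : st M f t q = st M f' t' q') :
    f = f' ∧ t = t' ∧ q = q' := by
  obtain ⟨h1, -, h3, h4⟩ := stW_inj h
  exact ⟨h1, idF_inj M h3, h4⟩

theorem st_head (f : Bool) (t : Ft M) (q : ℕ) : (st M f t q).head? = some f := stW_head _ _ _ _

theorem le_st (f : Bool) (t : Ft M) (q : ℕ) : q ≤ num (st M f t q) := le_num_stW _ _ _ _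

theorem ls_st {g : ℕ → ℕ} (hg : LS g) (f : Bool) (t : Ft M) : LS (fun q => num (st M f t (g q))) :=
  ls_stW hg _ _ _

/-! ### The functions -/

/-- The cell of the head number `i`. -/
def cur (t : Ft M) (i : Fin k) (q : ℕ) : ℕ := mgM (t.2.1 i) (t.2.2.2 i) (comp i q.unpair.2)

/-- The sides of the heads, `e` being the tests for the cell `0`. -/
def sid (t : Ft M) (e : Fin k → Bool) (i : Fin k) : Bool := sgM (t.2.1 i) (t.2.2.2 i) (e i)

/-- The tests. -/
def tsz (q : ℕ) (i : Fin k) : Bool := decide (comp i q.unpair.2 = 0)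

/-- The new state word if `a` is the letter under the input head. -/
noncomputable def resR (σ : M.State) (a : Option Bool) (s : Fin k → M.Sym) (g : Fin k → Bool)
    (p n m : ℕ) : List Bool :=
  open Classical in
  match M.step σ a s with
  | none => st M (decide (σ ∈ M.accept)) (some σ, fun _ => Dir.stay, s, g)
      (Nat.pair (Nat.pair p n) m)
  | some x => st M false (some x.1, fun j => (x.2.2 j).2, fun j => (x.2.2 j).1, g)
      (Nat.pair (Nat.pair (pos a x.2.1 p) n) m)

/-- What the machine sees in a step: the flag and the finite part, the letters, and the contents of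
the cells on which the heads are. -/
abbrev TupR : Type :=
  Bool × Ft M × Option Bool × Option Bool × (Fin k → Fin k → M.Sym × M.Sym)

/-- The new state word. -/
noncomputable def outR (t : TupR M) (e : Fin k → Bool) (q : ℕ) : List Bool :=
  match t.2.1.1 with
  | none => if t.2.2.1 = none then
      st M false (some M.start, fun _ => Dir.stay, fun _ => M.blank, sid M t.2.1 e)
        (Nat.pair (Nat.pair 0 q.unpair.1.unpair.2) (vec k fun i => cur M t.2.1 i q))
    else st M false (none, fun _ => Dir.stay, fun _ => M.blank, sid M t.2.1 e)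
        (Nat.pair (Nat.pair 0 (q.unpair.1.unpair.2 + 1)) (vec k fun i => cur M t.2.1 i q))
  | some σ => resR M σ (letL D t.2.2.1 t.2.2.2.1 q.unpair.1.unpair.1 q.unpair.1.unpair.2)
      (fun i => if sid M t.2.1 e i then (t.2.2.2.2 i i).2 else (t.2.2.2.2 i i).1) (sid M t.2.1 e)
      q.unpair.1.unpair.1 q.unpair.1.unpair.2 (vec k fun i => cur M t.2.1 i q)

/-- The new content of a cell; `e i` is the test whether it is the last cell of the head `i`. -/
def outX (t : Ft M) (c : Fin k → M.Sym × M.Sym) (e : Fin k → Bool) (i : Fin k) :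
    M.Sym × M.Sym :=
  if e i then (if t.2.2.2 i then ((c i).1, t.2.2.1 i) else (t.2.2.1 i, (c i).2)) else c i

/-! ### Linear space -/

theorem ls_cur (t : Ft M) (i : Fin k) : LS (cur M t i) := by
  have h : LS (fun q : ℕ => comp i q.unpair.2) :=
    LS.comp (g := comp i) (f := fun q : ℕ => q.unpair.2) (ls_comp i) (by fun_prop)
  show LS fun q : ℕ => mgM (t.2.1 i) (t.2.2.2 i) (comp i q.unpair.2)
  generalize t.2.2.2 i = g
  generalize t.2.1 i = d
  rcases d with _ | _ | _ <;> cases g <;> simp only [mgM] <;> fun_prop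

theorem ls_vcur (t : Ft M) : LS (fun q : ℕ => vec k fun i => cur M t i q) :=
  ls_vec (f := fun i => cur M t i) fun i => ls_cur M t i

theorem ls_resR {p n m : ℕ → ℕ} (hp : LS p) (hn : LS n) (hm : LS m) (σ : M.State)
    (a : Option Bool) (s : Fin k → M.Sym) (g : Fin k → Bool) :
    LS (fun q : ℕ => num (resR M σ a s g (p q) (n q) (m q))) := by
  classical
  cases hs : M.step σ a s with
  | none =>
    have e : (fun q : ℕ => num (resR M σ a s g (p q) (n q) (m q))) = fun q : ℕ =>
        num (st M (decide (σ ∈ M.accept)) (some σ, fun _ => Dir.stay, s, g)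
          (Nat.pair (Nat.pair (p q) (n q)) (m q))) := by
      funext q
      unfold resR
      rw [hs]
    rw [e]
    exact ls_st M (g := fun q => Nat.pair (Nat.pair (p q) (n q)) (m q))
      (ls_pair (ls_pair hp hn) hm) _ _
  | some x =>
    have e : (fun q : ℕ => num (resR M σ a s g (p q) (n q) (m q))) = fun q : ℕ =>
        num (st M false (some x.1, fun j => (x.2.2 j).2, fun j => (x.2.2 j).1, g)
          (Nat.pair (Nat.pair (pos a x.2.1 (p q)) (n q)) (m q))) := by
      funext q
      unfold resR
      rw [hs]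
    rw [e]
    have h := LS.comp (g := pos a x.2.1) (ls_pos a x.2.1) (f := p) hp
    exact ls_st M (g := fun q => Nat.pair (Nat.pair (pos a x.2.1 (p q)) (n q)) (m q))
      (ls_pair (ls_pair h hn) hm) _ _

/-- A function of the letter under the input head. -/
theorem ls_letR {p n : ℕ → ℕ} (hp : LS p) (hn : LS n) (a b : Option Bool)
    {G : Option Bool → ℕ → ℕ} (hG : ∀ x, LS (G x)) :
    LS (fun q : ℕ => G (letL D a b (p q) (n q)) q) := by
  have e : (fun q : ℕ => G (letL D a b (p q) (n q)) q) = fun q =>
      ifz (p q) (G none q)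
        (ifz (ltv D (n q) (p q - 1) (lett a + 3 * lett b)) (G none q)
          (ifz (ltv D (n q) (p q - 1) (lett a + 3 * lett b) - 1) (G (some false) q)
            (G (some true) q))) := by
    funext q
    unfold letL optL ifz
    by_cases h0 : p q = 0
    · rw [if_pos h0, if_pos h0]
    · rw [if_neg h0, if_neg h0]
      by_cases h1 : ltv D (n q) (p q - 1) (lett a + 3 * lett b) = 0
      · rw [if_pos h1, if_pos h1]
      · rw [if_neg h1, if_neg h1]
        by_cases h2 : ltv D (n q) (p q - 1) (lett a + 3 * lett b) = 1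
        · rw [if_pos h2, if_pos (by omega)]
        · rw [if_neg h2, if_neg (by omega)]
  rw [e]
  have h1 : LS (fun q : ℕ => ltv D (n q) (p q - 1) (lett a + 3 * lett b)) :=
    ls_ltv D hn (by fun_prop) (LS.const _)
  have h2 := hG none
  have h3 := hG (some false)
  have h4 := hG (some true)
  exact LS.ifz hp h2 (LS.ifz h1 h2 (LS.ifz (by fun_prop) h3 h4))

theorem ls_outR (t : TupR M) (e : Fin k → Bool) : LS (fun q => num (outR D M t e q)) := by
  obtain ⟨f, ⟨σ, d, s, g⟩, a, b, v⟩ := t
  have hv := ls_vcur M (σ, d, s, g)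
  rcases σ with _ | σ
  · by_cases h : a = none
    · have e1 : (fun q => num (outR D M (f, (none, d, s, g), a, b, v) e q)) = fun q : ℕ =>
          num (st M false (some M.start, fun _ => Dir.stay, fun _ => M.blank,
            sid M (none, d, s, g) e) (Nat.pair (Nat.pair 0 q.unpair.1.unpair.2)
              (vec k fun i => cur M (none, d, s, g) i q))) := by
        funext q
        unfold outR
        simp only [h, if_true]
      rw [e1]
      exact ls_st M (g := fun q : ℕ => Nat.pair (Nat.pair 0 q.unpair.1.unpair.2)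
        (vec k fun i => cur M (none, d, s, g) i q))
        (ls_pair (ls_pair (LS.const 0) (by fun_prop)) hv) _ _
    · have e1 : (fun q => num (outR D M (f, (none, d, s, g), a, b, v) e q)) = fun q : ℕ =>
          num (st M false (none, fun _ => Dir.stay, fun _ => M.blank,
            sid M (none, d, s, g) e) (Nat.pair (Nat.pair 0 (q.unpair.1.unpair.2 + 1))
              (vec k fun i => cur M (none, d, s, g) i q))) := by
        funext q
        unfold outR
        simp only [h, if_false]
      rw [e1]
      exact ls_st M (g := fun q : ℕ => Nat.pair (Nat.pair 0 (q.unpair.1.unpair.2 + 1))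
        (vec k fun i => cur M (none, d, s, g) i q))
        (ls_pair (ls_pair (LS.const 0) (by fun_prop)) hv) _ _
  · exact ls_letR D (p := fun q : ℕ => q.unpair.1.unpair.1)
      (n := fun q : ℕ => q.unpair.1.unpair.2) (by fun_prop) (by fun_prop) a b
      (G := fun x q => num (resR M σ x
        (fun i => if sid M (some σ, d, s, g) e i then (v i i).2 else (v i i).1)
        (sid M (some σ, d, s, g) e) q.unpair.1.unpair.1 q.unpair.1.unpair.2
        (vec k fun i => cur M (some σ, d, s, g) i q)))
      fun x => ls_resR M (by fun_prop) (by fun_prop) hv σ x _ _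

theorem ls_outR' (t : TupR M) : LS (fun q => num (outR D M t (tsz q) q)) :=
  ls_tests (z := fun (i : Fin k) (q : ℕ) => comp i q.unpair.2)
    (fun i => LS.comp (g := comp i) (f := fun q : ℕ => q.unpair.2) (ls_comp i) (by fun_prop))
    (fun e q => num (outR D M t e q)) fun e => ls_outR D M t e

/-! ### The words which the functions get -/

variable (code : (Fin k → M.Sym × M.Sym) → List Bool)

/-- The word which `next` gets. -/
noncomputable def encR (t : TupR M) (q : ℕ) : List Bool :=
  sd (st M t.1 t.2.1 q) ++ (letW t.2.2.1 ++ (letW t.2.2.2.1 ++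
    (List.finRange k).flatMap fun i => sd (code (t.2.2.2.2 i))))

/-- The word which `write` gets. -/
noncomputable def encX (t : Bool × Ft M × (Fin k → M.Sym × M.Sym)) (x : ℕ) : List Bool :=
  sd (st M t.1 t.2.1 x.unpair.1) ++ (sd (wd (x.unpair.2.unpair.1 + 1)) ++
    (sd x.unpair.2.unpair.2.bits ++ code t.2.2))

variable {code}

theorem encR_inj (hc : Function.Injective code) {t t' : TupR M} {q q' : ℕ}
    (h : encR M code t q = encR M code t' q') : t = t' ∧ q = q' := by
  obtain ⟨f, t, a, b, v⟩ := t
  obtain ⟨f', t', a', b', v'⟩ := t'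
  obtain ⟨h1, h2⟩ := sd_inj h
  obtain ⟨h3, h4, h5⟩ := st_inj M h1
  obtain ⟨h7, h8⟩ := letW_inj h2
  obtain ⟨h9, h10⟩ := letW_inj h8
  have h11 := (Pool.Agent.Helper31.TMS.flatMap_inj (v := fun i => code (v i))
    (v' := fun i => code (v' i)) (l := List.finRange k) (r := []) (r' := [])
    (by simpa using h10)).1
  have h12 : v = v' := by
    funext i
    exact hc (h11 i (List.mem_finRange i))
  simp only at h3 h4 h7 h9
  rw [h3, h4, h7, h9, h12]
  exact ⟨rfl, h5⟩

theorem le_encR (t : TupR M) (q : ℕ) : q ≤ num (encR M code t q) :=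
  (le_st M _ _ _).trans ((num_le_sd _).trans (num_mono_left _ _))

theorem ls_encR (t : TupR M) : LS (fun q => num (encR M code t q)) := by
  have e : (fun q => num (encR M code t q)) = fun q =>
      catN (sdN (num (st M t.1 t.2.1 q)))
        (num (letW t.2.2.1 ++ (letW t.2.2.2.1 ++
          (List.finRange k).flatMap fun i => sd (code (t.2.2.2.2 i))))) := by
    funext q
    rw [sdN_num, catN_num]
    rfl
  rw [e]
  have := ls_st M (g := fun q => q) LS.id t.1 t.2.1
  fun_prop

theorem encX_inj (hc : Function.Injective code) {t t' : Bool × Ft M × (Fin k → M.Sym × M.Sym)}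
    {x x' : ℕ} (h : encX M code t x = encX M code t' x') : t = t' ∧ x = x' := by
  obtain ⟨f, t, c⟩ := t
  obtain ⟨f', t', c'⟩ := t'
  obtain ⟨h1, h2⟩ := sd_inj h
  obtain ⟨h3, h4, h5⟩ := st_inj M h1
  obtain ⟨h6, h7⟩ := sd_inj h2
  obtain ⟨h8, h9⟩ := sd_inj h7
  have h10 : x.unpair.2.unpair.1 = x'.unpair.2.unpair.1 := by
    have := congrArg num h6
    rw [num_wd (Nat.succ_pos _), num_wd (Nat.succ_pos _)] at this
    omega
  have h11 := bits_inj h8
  have h12 : x.unpair.2 = x'.unpair.2 := by
    rw [← Nat.pair_unpair x.unpair.2, h10, h11, Nat.pair_unpair]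
  simp only at h3 h4 h9
  refine ⟨by rw [h3, h4, hc h9], ?_⟩
  rw [← Nat.pair_unpair x, h5, h12, Nat.pair_unpair]

/-- The bound for the parameters of `encX`. -/
def bX (x : ℕ) : ℕ := ((x + 1) ^ 2 + x + 1) ^ 2

theorem le_encX (t : Bool × Ft M × (Fin k → M.Sym × M.Sym)) (x : ℕ) :
    x ≤ bX (num (encX M code t x)) := by
  set X := num (encX M code t x) with hX
  have h1 : x.unpair.1 ≤ X :=
    (le_st M _ _ _).trans ((num_le_sd _).trans (num_mono_left _ _))
  have h2 : x.unpair.2.unpair.1 ≤ X := by
    have g1 : x.unpair.2.unpair.1 + 1 = num (wd (x.unpair.2.unpair.1 + 1)) :=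
      (num_wd (Nat.succ_pos _)).symm
    have g2 : num (wd (x.unpair.2.unpair.1 + 1)) ≤ X :=
      (num_le_sd _).trans ((num_mono_left _ _).trans (num_le_append _ _))
    omega
  have h3 : x.unpair.2.unpair.2 ≤ X := by
    have g1 := Pool.Agent.Helper31.TMS.lt_num_bits x.unpair.2.unpair.2
    have g2 : num x.unpair.2.unpair.2.bits ≤ X :=
      (num_le_sd _).trans ((num_mono_left _ _).trans ((num_le_append _ _).trans
        (num_le_append _ _)))
    omega
  have h4 : x.unpair.2 ≤ (X + 1) ^ 2 := by
    rw [← Nat.pair_unpair x.unpair.2]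
    refine (Nat.pair_lt_max_add_one_sq _ _).le.trans ?_
    exact Nat.pow_le_pow_left (Nat.succ_le_succ (max_le h2 h3)) 2
  rw [← Nat.pair_unpair x]
  refine (Nat.pair_lt_max_add_one_sq _ _).le.trans ?_
  unfold bX
  refine Nat.pow_le_pow_left ?_ 2
  have h5 : max x.unpair.1 x.unpair.2 ≤ (X + 1) ^ 2 + X := max_le (by omega) (by omega)
  omega

theorem ls_encX (t : Bool × Ft M × (Fin k → M.Sym × M.Sym)) :
    LS (fun x => num (encX M code t x)) := by
  have e : (fun x => num (encX M code t x)) = fun x =>
      catN (sdN (num (st M t.1 t.2.1 x.unpair.1))) (catN (sdN (x.unpair.2.unpair.1 + 1))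
        (catN (sdN (bitsN x.unpair.2.unpair.2)) (num (code t.2.2)))) := by
    funext x
    have e1 : x.unpair.2.unpair.1 + 1 = num (wd (x.unpair.2.unpair.1 + 1)) :=
      (num_wd (Nat.succ_pos _)).symm
    rw [e1, bitsN_eq, sdN_num, sdN_num, sdN_num, catN_num, catN_num, catN_num]
    rfl
  rw [e]
  have := ls_st M (g := fun x : ℕ => x.unpair.1) (by fun_prop) t.1 t.2.1
  fun_prop

/-- The test whether the cell is the last cell of the head `i`. -/
def tsX (x : ℕ) (i : Fin k) : Bool :=
  decide (ifz (eq01 x.unpair.2.unpair.2 (comp i x.unpair.1.unpair.2)) 1 0 = 0)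

theorem tsX_eq (q u z : ℕ) (i : Fin k) :
    tsX (Nat.pair q (Nat.pair u z)) i = decide (z = comp i q.unpair.2) := by
  unfold tsX
  simp only [Nat.unpair_pair]
  unfold eq01
  by_cases h : z = comp i q.unpair.2
  · rw [if_pos h, ifz_ne one_ne_zero]
    simp [h]
  · rw [if_neg h, ifz_zero]
    simp [h]

theorem ls_outX (t : Ft M) (c : Fin k → M.Sym × M.Sym) :
    LS (fun x => num (code (outX M t c (tsX x)))) := by
  refine ls_tests (z := fun (i : Fin k) (x : ℕ) =>
    ifz (eq01 x.unpair.2.unpair.2 (comp i x.unpair.1.unpair.2)) 1 0) (fun i => ?_)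
    (fun e _ => num (code (outX M t c e))) fun e => LS.const _
  have h : LS (fun x : ℕ => comp i x.unpair.1.unpair.2) :=
    LS.comp (g := comp i) (f := fun x : ℕ => x.unpair.1.unpair.2) (ls_comp i) (by fun_prop)
  fun_prop

/-! ### The machine -/

/-- The machine `A` simulates `M` on the words `F w y`. -/
structure SmR (code : (Fin k → M.Sym × M.Sym) → List Bool) (A : Reader k) : Prop where
  start : A.start = st M false (none, fun _ => Dir.stay, fun _ => M.blank, fun _ => false)
    (Nat.pair (Nat.pair 0 0) (vec k fun _ => 0))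
  addr : ∀ f t q, A.addr (st M f t q) = (adrL D M t.1 q.unpair.1).bits
  arr : ∀ u, A.arr u = []
  pos : ∀ (i : Fin k) f t q, A.pos (sd (i : ℕ).bits ++ st M f t q) = (cur M t i q).bits
  next : ∀ t q, A.next (encR M code t q) = outR D M t (tsz q) q
  write : ∀ f t c q u z, A.write (sd (st M f t q) ++ (sd u ++ (sd z.bits ++ code c))) =
    code (outX M t c fun i => decide (z = comp i q.unpair.2))

theorem exists_machR (hc : Function.Injective code) : ∃ A : Reader k, SmR D M code A := by
  have := M.finState
  have := M.finSym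
  have := finite_ft M
  obtain ⟨f1, l1, h1⟩ := exists_linComp (τ := Bool × Ft M)
    (fun t q => st M t.1 t.2 q) (fun t q => (adrL D M t.2.1 q.unpair.1).bits)
    (fun t q => num (st M t.1 t.2 q)) (fun t q => bitsN (adrL D M t.2.1 q.unpair.1))
    (fun t => ls_st M LS.id _ _)
    (fun t => LS.bitsN (LS.comp (g := adrL D M t.2.1) (f := fun q : ℕ => q.unpair.1)
      (ls_adrL D M t.2.1) (by fun_prop))) (fun _ _ => rfl)
    (fun t q => bitsN_eq _) (fun t t' q q' h => by
      obtain ⟨h3, h4, h5⟩ := st_inj M h
      exact ⟨Prod.ext h3 h4, h5⟩) (fun t q => le_st M _ _ _)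
  obtain ⟨f2, l2, h2⟩ := exists_linComp (encR M code) (fun t q => outR D M t (tsz q) q)
    (fun t q => num (encR M code t q))
    (fun t q => num (outR D M t (tsz q) q)) (ls_encR M) (ls_outR' D M) (fun _ _ => rfl)
    (fun _ _ => rfl) (fun t t' q q' h => encR_inj M hc h) (fun t q => le_encR M t q)
  obtain ⟨f3, l3, h3⟩ := exists_linComp (τ := Fin k × Bool × Ft M)
    (fun t q => sd (t.1 : ℕ).bits ++ st M t.2.1 t.2.2 q) (fun t q => (cur M t.2.2 t.1 q).bits)
    (fun t q => catN (num (sd (t.1 : ℕ).bits)) (num (st M t.2.1 t.2.2 q)))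
    (fun t q => bitsN (cur M t.2.2 t.1 q)) (fun t => by
      have := ls_st M (g := fun q => q) LS.id t.2.1 t.2.2
      fun_prop) (fun t => LS.bitsN (ls_cur M t.2.2 t.1)) (fun _ _ => catN_num _ _)
    (fun _ _ => bitsN_eq _)
    (fun t t' q q' h => by
      obtain ⟨g1, g2⟩ := sd_inj h
      obtain ⟨g3, g4, g5⟩ := st_inj M g2
      exact ⟨Prod.ext (Fin.ext (bits_inj g1)) (Prod.ext g3 g4), g5⟩)
    (fun t q => (le_st M _ _ _).trans (num_le_append _ _))
  obtain ⟨f4, l4, h4⟩ := exists_linCompB (τ := Bool × Ft M × (Fin k → M.Sym × M.Sym)) bX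
    (by unfold bX; fun_prop) (encX M code) (fun t x => code (outX M t.2.1 t.2.2 (tsX x)))
    (fun t x => num (encX M code t x)) (fun t x => num (code (outX M t.2.1 t.2.2 (tsX x))))
    (ls_encX M) (fun t => ls_outX M t.2.1 t.2.2) (fun _ _ => rfl) (fun _ _ => rfl)
    (fun t t' x x' h => encX_inj M hc h) (fun t x => le_encX M t x)
  have l5 : LinComp fun _ => ([] : List Bool) :=
    Pool.Agent.Helper31.TMS.linComp_of_ls (F := fun _ => 1) (LS.const 1) fun _ => rfl
  refine ⟨⟨st M false (none, fun _ => Dir.stay, fun _ => M.blank, fun _ => false)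
    (Nat.pair (Nat.pair 0 0) (vec k fun _ => 0)), f1, fun _ => [], f3, f2, f4, l1, l5, l3, l2, l4⟩,
    ⟨rfl, fun f t q => h1 (f, t) q, fun _ => rfl, fun i f t q => h3 (i, f, t) q, h2, ?_⟩⟩
  intro f t c q u z
  have e1 := h4 (f, t, c) (Nat.pair q (Nat.pair (num u - 1) z))
  have e2 : encX M code (f, t, c) (Nat.pair q (Nat.pair (num u - 1) z)) =
      sd (st M f t q) ++ (sd u ++ (sd z.bits ++ code c)) := by
    unfold encX
    simp only [Nat.unpair_pair]
    rw [Nat.sub_add_cancel (num_pos u), wd_num]
  rw [e2] at e1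
  refine e1.trans ?_
  congr 2
  funext i
  exact tsX_eq q (num u - 1) z i

end Pool.Agent.Helper20.BRT
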