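import Pool.Agent.Helper20.BRT.Mach
import Pool.Agent.Helper92.RE.SimM

/-!
# Multitape Turing machines on the words `F w y` as machines with reading heads: the simulation
-/

namespace Pool.Agent.Helper20.BRT

open Pool.Agent.Helper65.LinSpace Pool.Agent.Helper78.Mpc Pool.Agent.Helper28.Ram
open Pool.Agent.Helper65.OH (letW)
open Pool.Agent.Helper65.BR (Reader)
open Pool.Agent.Helper20.TMS (pos_eq run_succ_none run_succ_some)
open Pool.Agent.Helper31.TMS (AcceptsAt bval_bits)
open Pool.Agent.Helper92.RE (LD letL adr adrL letL_eq)

/-! ### Folding -/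

/-- The cell which contains the cell `z` of a tape. -/
def fld (z : ℤ) : ℕ := if 0 ≤ z then z.toNat else (-1 - z).toNat

theorem fld_toZ (g : Bool) (m : ℕ) : fld (toZ g m) = m := by
  unfold fld toZ
  cases g
  · simp
  · rw [if_pos rfl, if_neg (by omega)]
    omega

theorem fld_lt {b : ℕ} {z : ℤ} (h1 : -2 ^ b ≤ z) (h2 : z < 2 ^ b) : fld z < 2 ^ b := by
  unfold fld
  have h3 : ((2 ^ b : ℕ) : ℤ) = 2 ^ b := by push_cast; rfl
  split_ifs with h
  · have : (z.toNat : ℤ) < ((2 ^ b : ℕ) : ℤ) := by
      rw [Int.toNat_of_nonneg h, h3]
      exact h2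
    exact_mod_cast this
  · have : ((-1 - z).toNat : ℤ) < ((2 ^ b : ℕ) : ℤ) := by
      rw [Int.toNat_of_nonneg (by omega), h3]
      linarith
    exact_mod_cast this

theorem fld_near {z z' : ℤ} (h1 : z ≤ z' + 1) (h2 : z' ≤ z + 1) :
    fld z ≤ fld z' + 1 ∧ fld z' ≤ fld z + 1 := by
  unfold fld
  split_ifs <;> omega

theorem upd_fld {S : Type} (T : ℤ → S) (g : Bool) (m z : ℕ) (s : S) :
    (Function.update T (toZ g m) s z, Function.update T (toZ g m) s (-1 - z)) =
      if z = m then (if g then (T z, s) else (s, T (-1 - z))) else (T z, T (-1 - z)) := by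
  unfold toZ
  cases g
  · have h1 : (-1 - (z : ℤ)) ≠ (m : ℤ) := by omega
    simp only [Bool.false_eq_true, if_false]
    rw [Function.update_of_ne h1]
    by_cases h : z = m
    · rw [if_pos h, h, Function.update_self]
    · rw [if_neg h, Function.update_of_ne (by exact_mod_cast h)]
  · have h1 : (z : ℤ) ≠ -1 - (m : ℤ) := by omega
    simp only [if_true]
    rw [Function.update_of_ne h1]
    by_cases h : z = m
    · rw [if_pos h, h, Function.update_self]
    · rw [if_neg h, Function.update_of_ne (by omega)]

section

variable {k : ℕ} {D : LD} {M : TM k} {code : (Fin k → M.Sym × M.Sym) → List Bool} {A : Reader k}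

theorem cell_eq (hA : SmR D M code A) (f : Bool) (t : Ft M) (q : ℕ) (i : Fin k) :
    A.cell (st M f t q) i = ([], cur M t i q) := by
  unfold Reader.cell
  rw [hA.arr, hA.pos, bval_bits]

/-- The configurations while the length is computed. -/
theorem sim_cntR (hb : code (fun _ => (M.blank, M.blank)) = []) (hA : SmR D M code A)
    (w y : List Bool) {t : ℕ} (ht : t ≤ w.length + 1) :
    (A.conf w y t).1 = (if t ≤ w.length then
      st M false (none, fun _ => Dir.stay, fun _ => M.blank, fun _ => false)
        (Nat.pair (Nat.pair 0 t) (vec k fun _ => 0)) else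
      st M false (some M.start, fun _ => Dir.stay, fun _ => M.blank, fun _ => false)
        (Nat.pair (Nat.pair 0 w.length) (vec k fun _ => 0))) ∧
    ∀ u z, (A.conf w y t).2 u z = [] := by
  induction t with
  | zero =>
    refine ⟨?_, fun u z => rfl⟩
    rw [if_pos (Nat.zero_le _)]
    exact hA.start
  | succ t ih =>
    obtain ⟨hq, hM⟩ := ih (by omega)
    rw [if_pos (by omega)] at hq
    set c := A.conf w y t with hc
    have haddr : A.addr c.1 = t.bits := by
      rw [hq, hA.addr]
      show (Nat.unpair (Nat.unpair (Nat.pair (Nat.pair 0 t) _)).1).2.bits = _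
      rw [Nat.unpair_pair, Nat.unpair_pair]
    have hinp : A.inp w y c.1 (fun i => c.2 (A.cell c.1 i).1 (A.cell c.1 i).2) = encR M code
        (false, (none, fun _ => Dir.stay, fun _ => M.blank, fun _ => false), w[t]?, y[t]?,
          fun _ _ => (M.blank, M.blank)) (Nat.pair (Nat.pair 0 t) (vec k fun _ => 0)) := by
      unfold Reader.inp encR
      rw [haddr, bval_bits]
      simp only [hM, hb]
      rw [hq]
    have hvec : (vec k fun i => cur M
        (none, fun _ => Dir.stay, fun _ => M.blank, fun _ => false) i
        (Nat.pair (Nat.pair 0 t) (vec k fun _ => 0))) = vec k fun _ => 0 := by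
      congr 1
      funext i
      unfold cur
      simp only [mgM, Nat.unpair_pair, comp_vec]
    have hsid : sid M (none, fun _ => Dir.stay, fun _ => M.blank, fun _ => false)
        (tsz (Nat.pair (Nat.pair 0 t) (vec k fun _ => 0))) = fun _ => false := by
      funext i
      rfl
    have hnx : A.nx w y c = (if t + 1 ≤ w.length then
        st M false (none, fun _ => Dir.stay, fun _ => M.blank, fun _ => false)
          (Nat.pair (Nat.pair 0 (t + 1)) (vec k fun _ => 0)) else
        st M false (some M.start, fun _ => Dir.stay, fun _ => M.blank, fun _ => false)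
          (Nat.pair (Nat.pair 0 w.length) (vec k fun _ => 0))) := by
      unfold Reader.nx
      rw [hinp, hA.next]
      unfold outR
      simp only [hvec, hsid, Nat.unpair_pair]
      by_cases h : t + 1 ≤ w.length
      · rw [if_pos h, if_neg]
        rw [List.getElem?_eq_getElem (by omega)]
        exact Option.some_ne_none _
      · have h2 : t = w.length := by omega
        rw [if_neg h, if_pos]
        · rw [h2]
        · rw [List.getElem?_eq_none (by omega)]
    refine ⟨hnx, fun u z => ?_⟩
    show A.write (sd (A.nx w y c) ++ (sd u ++ (sd z.bits ++ c.2 u z))) = []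
    rw [hM, hnx, ← hb]
    split_ifs
    · rw [hA.write]
      congr 1
      funext i
      unfold outX
      simp
    · rw [hA.write]
      congr 1
      funext i
      unfold outX
      simp

/-- The machine `A` simulates `M` on the word `F w y`. -/
theorem simR (hb : code (fun _ => (M.blank, M.blank)) = []) (hA : SmR D M code A)
    {F : List Bool → List Bool} (hF : D.Is F) (w y : List Bool) (t : ℕ) :
    (∃ f d s g m, (A.conf w y (w.length + 1 + t)).1 =
        st M f (some (M.run (F w ++ y) t).state, d, s, g)
          (Nat.pair (Nat.pair (M.run (F w ++ y) t).inp w.length) (vec k m)) ∧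
      (f = true ↔ ∃ u, t = u + 1 ∧ AcceptsAt M (F w ++ y) u) ∧
      (∀ i, toZ (sgM (d i) (g i) (decide (m i = 0))) (mgM (d i) (g i) (m i)) =
        (M.run (F w ++ y) t).head i) ∧
      ∀ i, m i = fld ((M.run (F w ++ y) (t - 1)).head i)) ∧
    ∀ (u : List Bool) (z : ℕ), (A.conf w y (w.length + 1 + t)).2 u z =
      code fun i => ((M.run (F w ++ y) t).tape i z, (M.run (F w ++ y) t).tape i (-1 - z)) := by
  classical
  set x := F w ++ y with hx
  induction t with
  | zero =>
    obtain ⟨h1, h3⟩ := sim_cntR hb hA w y (t := w.length + 1) le_rfl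
    rw [if_neg (by omega)] at h1
    refine ⟨⟨false, fun _ => Dir.stay, fun _ => M.blank, fun _ => false, fun _ => 0, h1, ?_, ?_,
      ?_⟩, fun u z => ?_⟩
    · simp
    · intro i
      rfl
    · intro i
      rfl
    · rw [add_zero, h3]
      exact hb.symm
  | succ t ih =>
    obtain ⟨⟨f, d, s, g, m, hq, hf, hpos, -⟩, hM⟩ := ih
    set c := A.conf w y (w.length + 1 + t) with hc
    set R := M.run x t with hR
    -- the cells and the sides of the heads
    obtain ⟨m', hm'⟩ : ∃ m' : Fin k → ℕ, m' = fun i => mgM (d i) (g i) (m i) := ⟨_, rfl⟩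
    obtain ⟨g', hg'⟩ : ∃ g' : Fin k → Bool, g' = fun i => sgM (d i) (g i) (decide (m i = 0)) :=
      ⟨_, rfl⟩
    have hhd : ∀ i, toZ (g' i) (m' i) = R.head i := by
      intro i
      rw [hm', hg']
      exact hpos i
    have hfl : ∀ i, m' i = fld (R.head i) := fun i => by rw [← hhd i, fld_toZ]
    have hcur : ∀ i, cur M (some R.state, d, s, g) i
        (Nat.pair (Nat.pair R.inp w.length) (vec k m)) = m' i := by
      intro i
      unfold cur
      simp only [Nat.unpair_pair, comp_vec]
      rw [hm']
    have hsid : sid M (some R.state, d, s, g)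
        (tsz (Nat.pair (Nat.pair R.inp w.length) (vec k m))) = g' := by
      funext i
      unfold sid tsz
      simp only [Nat.unpair_pair, comp_vec]
      rw [hg']
    -- what the machine reads
    have hp : R.inp ≤ x.length + 1 := Pool.Agent.Helper20.TMS.inp_le M x t
    have haddr : A.addr c.1 = (adr D w.length (R.inp - 1)).bits := by
      rw [hq, hA.addr]
      show (adr D (Nat.unpair (Nat.unpair (Nat.pair (Nat.pair R.inp w.length) _)).1).2
        ((Nat.unpair (Nat.unpair (Nat.pair (Nat.pair R.inp w.length) _)).1).1 - 1)).bits = _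
      rw [Nat.unpair_pair, Nat.unpair_pair]
    have hcell : ∀ i, A.cell c.1 i = ([], m' i) := by
      intro i
      rw [hq, cell_eq hA, hcur]
    have hinp : A.inp w y c.1 (fun i => c.2 (A.cell c.1 i).1 (A.cell c.1 i).2) = encR M code
        (f, (some R.state, d, s, g), w[adr D w.length (R.inp - 1)]?,
          y[adr D w.length (R.inp - 1)]?,
          fun i j => (R.tape j (m' i), R.tape j (-1 - m' i)))
        (Nat.pair (Nat.pair R.inp w.length) (vec k m)) := by
      unfold Reader.inp encR
      rw [haddr, bval_bits]
      simp only [hcell, hM]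
      rw [hq]
    have hsy : (fun i => if g' i then R.tape i (-1 - m' i) else R.tape i (m' i)) =
        fun i => R.tape i (R.head i) := by
      funext i
      rw [← hhd i]
      unfold toZ
      cases g' i <;> simp
    have hnx : A.nx w y c = resR M R.state (inputSym x R.inp) (fun i => R.tape i (R.head i)) g'
        R.inp w.length (vec k m') := by
      unfold Reader.nx
      rw [hinp, hA.next]
      unfold outR
      simp only [Nat.unpair_pair, hcur, hsid]
      rw [letL_eq hF w y R.inp, hsy]
    have hqs : (A.conf w y (w.length + 1 + (t + 1))).1 = A.nx w y c := rfl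
    have hMs : ∀ u z, (A.conf w y (w.length + 1 + (t + 1))).2 u z =
        A.write (sd (A.nx w y c) ++ (sd u ++ (sd z.bits ++ c.2 u z))) := fun u z => rfl
    have hwr : ∀ (f' : Bool) (σ' : Option M.State) (d' : Fin k → Dir) (s' : Fin k → M.Sym) (p : ℕ),
        A.nx w y c = st M f' (σ', d', s', g') (Nat.pair p (vec k m')) → ∀ u z,
        (A.conf w y (w.length + 1 + (t + 1))).2 u z = code fun i =>
          (Function.update (R.tape i) (R.head i) (s' i) z,
            Function.update (R.tape i) (R.head i) (s' i) (-1 - z)) := by
      intro f' σ' d' s' p he u z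
      rw [hMs, hM, he, hA.write]
      congr 1
      funext i
      unfold outX
      simp only [Nat.unpair_pair, comp_vec, decide_eq_true_eq]
      rw [← hhd i, upd_fld]
    cases hs : M.step R.state (inputSym x R.inp) (fun i => R.tape i (R.head i)) with
    | none =>
      obtain ⟨hrun, hnone⟩ := run_succ_none (M := M) (w := x) (t := t) hs
      have hres : A.nx w y c = st M (decide (R.state ∈ M.accept))
          (some R.state, fun _ => Dir.stay, fun i => R.tape i (R.head i), g')
          (Nat.pair (Nat.pair R.inp w.length) (vec k m')) := by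
        rw [hnx]
        unfold resR
        rw [hs]
      have hw := hwr _ _ _ _ _ hres
      rw [hrun, ← hR]
      refine ⟨⟨_, _, _, _, _, by rw [hqs]; exact hres, ?_, ?_, ?_⟩, fun u z => ?_⟩
      · rw [decide_eq_true_iff]
        constructor
        · intro h
          exact ⟨t, rfl, hnone, h⟩
        · rintro ⟨u, hu, -, h⟩
          obtain rfl : t = u := by omega
          exact h
      · intro i
        exact hhd i
      · intro i
        rw [Nat.add_sub_cancel, ← hR]
        exact hfl i
      · rw [hw]
        simp only [Function.update_eq_self]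
    | some X =>
      obtain ⟨hrun, hnone⟩ := run_succ_some (M := M) (w := x) (t := t) hs
      have hres : A.nx w y c = st M false
          (some X.1, fun j => (X.2.2 j).2, fun j => (X.2.2 j).1, g')
          (Nat.pair (Nat.pair (inputMove x X.2.1 R.inp) w.length) (vec k m')) := by
        rw [hnx]
        unfold resR
        rw [hs]
        simp only [pos_eq x R.inp hp]
      have hw := hwr _ _ _ _ _ hres
      rw [hrun, ← hR]
      refine ⟨⟨_, _, _, _, _, by rw [hqs]; exact hres, ?_, ?_, ?_⟩, fun u z => ?_⟩
      · constructor
        · intro h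
          exact absurd h (by simp)
        · rintro ⟨u, hu, h, -⟩
          obtain rfl : t = u := by omega
          exact absurd h hnone
      · intro i
        rw [toZ_move, hhd]
      · intro i
        rw [Nat.add_sub_cancel, ← hR]
        exact hfl i
      · rw [hw]

end

end Pool.Agent.Helper20.BRT
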